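import Mathlib
import Pool.Agent.Helper64.Tiling.Rects
import Pool.Agent.Helper64.Tiling.Virtual
import Pool.Agent.Helper64.Tiling.Universal
import Pool.Agent.Helper64.Tiling.Input

set_option autoImplicit false

namespace Pool.Agent.Results.MP_74d590_lc.ContinuousTilingsUndecidable

open Pool.Agent.Helper64.Tiling Turing PartrecToTM2

theorem trList_ones (N i : ℕ) (hi : i < 2 * N) :
    (trList (List.replicate N 1))[i]? = some (if i % 2 = 1 then Γ'.cons else Γ'.bit1) := by
  induction N generalizing i with
  | zero => omega
  | succ N ih =>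
    have h1 : trList (List.replicate (N + 1) 1) =
        Γ'.bit1 :: Γ'.cons :: trList (List.replicate N 1) := rfl
    rw [h1]
    match i with
    | 0 => rfl
    | 1 => rfl
    | i + 2 =>
      rw [List.getElem?_cons_succ, List.getElem?_cons_succ, ih i (by omega)]
      have h2 : (i + 2) % 2 = i % 2 := by omega
      rw [h2]

theorem length_ones (N : ℕ) : (trList (List.replicate N 1)).length = 2 * N := by
  induction N with
  | zero => rfl
  | succ N ih =>
    have h1 : trList (List.replicate (N + 1) 1) =
        Γ'.bit1 :: Γ'.cons :: trList (List.replicate N 1) := rfl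
    rw [h1, List.length_cons, List.length_cons, ih]
    omega

theorem result (n : ℕ) (hn : 2 ≤ n) :
    (¬ ∃ f : Input n →. Bool, Partrec f ∧ ∀ L : Input n, Valid L → Tiles (tileSet L) →
      ∃ b ∈ f L, (b = true ↔ HasContinuousTiling (tileSet L))) ∧
    ¬ ComputablePred fun L : Input n => Valid L ∧ HasContinuousTiling (tileSet L) := by
  have key : ¬ ∃ f : Input n →. Bool, Partrec f ∧ ∀ L : Input n, Valid L → Tiles (tileSet L) →
      ∃ b ∈ f L, (b = true ↔ HasContinuousTiling (tileSet L)) := by
    rintro ⟨f, hf, hfL⟩
    obtain ⟨Q, hQ, M, q0, hund⟩ := exists_universal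
    obtain ⟨m, k, code, h⟩ := exists_code (Q := Q) (K := K') (Γ := Γ')
    let S : ℕ → K' → List Γ' := fun e => K'.elim (trList (List.replicate (e + 1) 1)) [] [] []
    have hcol : ∀ e i, i ≤ 2 * e + 1 → col (S e) i =
        if i % 2 = 1 then (fun κ => if κ = K'.main then some Γ'.cons else none) else
          (fun κ => if κ = K'.main then some Γ'.bit1 else none) := by
      intro e i hi
      funext κ
      have h1 := trList_ones (e + 1) i (by omega)
      cases κ with
      | main =>
        show (trList (List.replicate (e + 1) 1))[i]? = _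
        rw [h1]
        split_ifs <;> rfl
      | rev =>
        show ([] : List Γ')[i]? = _
        split_ifs <;> simp
      | aux =>
        show ([] : List Γ')[i]? = _
        split_ifs <;> simp
      | stack =>
        show ([] : List Γ')[i]? = _
        split_ifs <;> simp
    have hlen : ∀ e κ, (S e κ).length ≤ 2 * e + 2 := by
      intro e κ
      cases κ with
      | main =>
        show (trList (List.replicate (e + 1) 1)).length ≤ _
        rw [length_ones]
        omega
      | rev => exact Nat.zero_le _
      | aux => exact Nat.zero_le _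
      | stack => exact Nat.zero_le _
    obtain ⟨L, hL, hv, ht⟩ := exists_input (n := n) M h q0 S _ _ hcol
    have hdec : ∀ e, ∃ b ∈ f (L e), (b = true ↔ M.Halts (q0, S e)) := by
      intro e
      have htile : Tiles (tileSet (L e)) := by
        rw [ht e]
        exact tiles_always hn h
      obtain ⟨b, hb, hb'⟩ := hfL (L e) (hv e) htile
      refine ⟨b, hb, hb'.trans ?_⟩
      rw [ht e]
      constructor
      · intro hc
        by_contra hnh
        exact not_continuous hn h (hlen e) hnh hc
      · exact continuous_of_halts hn h (hlen e)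
    apply hund
    have hdom : ∀ e, (f (L e)).Dom := fun e => (hdec e).choose_spec.1.1
    refine ⟨fun e => (f (L e)).get (hdom e), ?_, fun e => ?_⟩
    · exact Partrec.of_eq (hf.comp hL) fun e => (Part.some_get (hdom e)).symm
    · obtain ⟨b, hb, hb'⟩ := hdec e
      have h2 : (f (L e)).get (hdom e) = b := Part.get_eq_of_mem hb (hdom e)
      have h3 : ((f (L e)).get (hdom e) = true ↔ M.Halts (q0, S e)) := by
        rw [h2]
        exact hb'
      exact h3
  refine ⟨key, fun hc => key ?_⟩
  obtain ⟨g, hg, hgL⟩ := ComputablePred.computable_iff.1 hc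
  refine ⟨fun L => Part.some (g L), hg.partrec, fun L hL _ => ⟨g L, Part.mem_some _, ?_⟩⟩
  have h1 : (Valid L ∧ HasContinuousTiling (tileSet L)) = (g L = true) := congrFun hgL L
  rw [← h1]
  exact ⟨fun h2 => h2.2, fun h2 => ⟨hL, h2⟩⟩

end Pool.Agent.Results.MP_74d590_lc.ContinuousTilingsUndecidable
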